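import Mathlib
import Pool.Agent.Q203.NumIndexC

open Pool.Agent.Q203.NumIndex

namespace Pool.Agent.Results.MP_a8e783_an.DualIndexLarger

/-- There is a real Banach space `X` (continuous functions on the one-point compactification of
`ℕ` with values in the Euclidean plane) with `n'(X) ≤ 1/2` and `n'(X*) ≥ 1/√2`, so that
`n'(X*) > n'(X)`. -/
theorem _root_.Pool.Agent.Results.MP_a8e783_an.DualIndexLarger.result :
    ∃ (X : Type) (_ : NormedAddCommGroup X) (_ : NormedSpace ℝ X) (_ : CompleteSpace X),
      secondIndex X ≤ 1 / 2 ∧ 1 / Real.sqrt 2 ≤ secondIndex (StrongDual ℝ X) ∧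
        secondIndex X < secondIndex (StrongDual ℝ X) := by
  refine ⟨XC, inferInstance, inferInstance, inferInstance, index_le, dual_ge, ?_⟩
  refine lt_of_le_of_lt index_le (lt_of_lt_of_le ?_ dual_ge)
  have h1 : Real.sqrt 2 < 2 := by
    rw [Real.sqrt_lt' (by norm_num)]
    norm_num
  have h2 : 0 < Real.sqrt 2 := by positivity
  exact one_div_lt_one_div_of_lt h2 h1

end Pool.Agent.Results.MP_a8e783_an.DualIndexLarger
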